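import Pool.Agent.Work.MP_d4a230_co.E.Stmt
import Pool.Agent.Work.MP_d4a230_co.S.Main

namespace Pool.Agent.Results.MP_d4a230_co.ExtSidorenko

open Pool.Agent.Work.MP_d4a230_co

/-- Let `m₂(H) > 1` and let `F` be the unique 2-densest subgraph of `H`, with `k` edges. Suppose
that `H` is bipartite and `F` is complete bipartite or an even cycle, or that homomorphisms of `F`
extend to `H` in all graphs of positive relative minimum degree and `F` has a convex homomorphism
density, or has Sidorenko's property (in particular the graphs of `PrismClass`) and a bipartition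
with degrees at most `s` on one side, at most `t` on the other and `k ≤ ⌊k / s⌋ ⌊k / t⌋`. Then for
every `c > 0` the chromatic threshold at `p ~ c n ^ (-1 / m₂(H))` is the limiting independence ratio
of the binomial random `k`-uniform hypergraph with mean degree `copyRate F c`. -/
theorem result {W : Type} [Fintype W] (H : SimpleGraph W) (F : H.Subgraph) [Fintype F.verts]
    (hF : UniqueDensest F) (hm : 1 < twoDensity H)
    (hC : (H.Colorable 2 ∧
        ((∃ s t : ℕ, Nonempty (F.coe ≃g completeBipartiteGraph (Fin s) (Fin t))) ∨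
          ∃ l : ℕ, Even l ∧ 4 ≤ l ∧ Nonempty (F.coe ≃g SimpleGraph.cycleGraph l))) ∨
      ((∀ d : ℝ, 0 < d → ExtendsAt F d) ∧ (ConvexDensity F.coe ∨
        ((Sidorenko F.coe ∨ PrismClass F.coe) ∧
          ∃ (A : Set F.verts) (s t : ℕ), (∀ u v, F.coe.Adj u v → (u ∈ A ↔ v ∉ A)) ∧
            (∀ v ∉ A, (F.coe.neighborSet v).ncard ≤ s) ∧
            (∀ v ∈ A, (F.coe.neighborSet v).ncard ≤ t) ∧
            F.edgeSet.ncard ≤ F.edgeSet.ncard / s * (F.edgeSet.ncard / t)))))
    (c : ℝ) (hc : 0 < c) (p : ℕ → unitInterval)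
    (hp : Filter.Tendsto (fun n : ℕ => (p n : ℝ) * (n : ℝ) ^ (1 / twoDensity H)) Filter.atTop
      (nhds c)) :
    Filter.Tendsto (fun N : ℕ => meanIndep F.edgeSet.ncard N
      (copyRate F.coe c / ((N - 1).choose (F.edgeSet.ncard - 1) : ℝ)) / N) Filter.atTop
      (nhds (chromThreshold H p)) := by
  classical
  obtain ⟨C, e⟩ := U.cr_core (F := F.coe) (U.cr_verts F) (fun _ _ => Iff.rfl) hF hm
  obtain ⟨b1, b2⟩ := U.e_bal hF
  have h1 : ∀ d : ℝ, 0 < d → ExtendsAt F d := by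
    rcases hC with ⟨h, ⟨s, t, ⟨i⟩⟩ | ⟨l, -, -, ⟨i⟩⟩⟩ | h
    exacts [fun d _ => U.e_ret (U.e_kst C h i) d, fun d _ => U.e_ret (U.e_cyc C h i) d, h.1]
  rw [U.e_eq C h1 hc (C.hbal.reg hc (e ▸ hp)) (Real.sInf_nonneg fun _ h => h.1.le)]
  rw [U.cr_edges (F := F.coe) (U.cr_verts F) (fun _ _ => Iff.rfl), ← ncard_edge] at hC ⊢
  refine U.sandwich F.coe b1 (b2 ▸ hm) ?_ c hc p (b2 ▸ hp)
  rcases hC with ⟨-, ⟨s, t, ⟨i⟩⟩ | ⟨l, k1, k2, ⟨i⟩⟩⟩ | h
  exacts [Or.inl ((convexDensity_Kst' s t).iso i), Or.inl ((convexDensity_cycle l k1 k2).iso i), h.2]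

end Pool.Agent.Results.MP_d4a230_co.ExtSidorenko
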