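import Pool.Agent.Work.MP_d4a230_co.L.Stmt
import Pool.Agent.Work.MP_d4a230_co.T.Main

namespace Pool.Agent.Results.MP_d4a230_co.SandwichReduction

open Pool.Agent.Work.MP_d4a230_co

/-- At the 2-density threshold the chromatic threshold of `H` lies between `max t (1 - 1 / r)` and
`max t d₀`, where `t` is the minimum-degree Turán threshold of the subgraph `F`, and `r = 1` or
`r ≥ 3` and `H` has no colouring with `r` colours. Here either `F` is the unique 2-densest subgraph
of `H` and homomorphisms of `F` extend to `H` in all graphs of relative minimum degree above `d₀`,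
or `F` is a retract of `H`, or `d₀ ≥ 1 - 1 / D` and `H` is `D`-degenerate over `F` or
`2 m₂(H) ≤ D + 1`; or `H` lies in a tree of copies of `F`, strictly 2-balanced, `m₂(F) = m₂(H)`. -/
theorem result {W : Type} [Fintype W] (H : SimpleGraph W) (F : H.Subgraph) (d₀ : ℝ)
    (hF : (UniqueDensest F ∧
        ((∀ d : ℝ, d₀ < d → ExtendsAt F d) ∨ (∃ χ : H →g F.coe, ∀ a : F.verts, χ a = a) ∨
          ∃ D : ℕ, 1 ≤ D ∧ 1 - 1 / (D : ℝ) ≤ d₀ ∧
            (DegenerateOver F D ∨ 2 * twoDensity H ≤ D + 1))) ∨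
      (StrictlyTwoBalanced F.coe ∧ twoDensity F.coe = twoDensity H ∧ TreeOf F.coe H))
    (hm : 1 < twoDensity H) (r : ℕ) (hr : r = 1 ∨ (3 ≤ r ∧ ¬ H.Colorable r))
    (c : ℝ) (hc : 0 < c) (p : ℕ → unitInterval)
    (hp : Filter.Tendsto (fun n : ℕ => (p n : ℝ) * (n : ℝ) ^ (1 / twoDensity H)) Filter.atTop
      (nhds c)) :
    chromThreshold H p ∈ Set.Icc (max (turanThreshold F.coe p) (1 - 1 / (r : ℝ)))
      (max (turanThreshold F.coe p) d₀) := by
  classical
  have be : HBal F.coe ∧ twoDensity H =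
      ((F.coe.edgeFinset.card : ℝ) - 1) / ((Fintype.card F.verts : ℝ) - 2) := by
    rcases hF with ⟨hF, -⟩ | ⟨hS, e, -⟩
    · obtain ⟨C, e⟩ := U.cr_core (F := F.coe) (U.cr_verts F) (fun _ _ => Iff.rfl) hF hm
      exact ⟨C.hbal, e⟩
    · exact ⟨hS.hbal (e ▸ hm), e.symm.trans hS.twoDensity_eq⟩
  obtain ⟨B, e⟩ := be
  have R := B.reg hc (e ▸ hp)
  have h1 : chromThreshold H p ∈
      Set.Icc (turanThreshold F.coe p) (max (turanThreshold F.coe p) d₀) := by
    rcases hF with ⟨hF, hE⟩ | ⟨-, -, hT⟩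
    · obtain ⟨C, -⟩ := U.cr_core (F := F.coe) (U.cr_verts F) (fun _ _ => Iff.rfl) hF hm
      rw [e] at hE
      rcases hE with h | h | ⟨D, h1, h2, h⟩
      · exact U.e_main C h hc R
      · exact U.e_main C (fun d _ => U.e_ret h d) hc R
      · exact Set.Icc_subset_Icc_right (max_le_max le_rfl h2)
          (U.cr_main C (h.elim (U.cr_edeg (U.cr_verts F)) (U.e_deg C)) h1 hc R)
    · rw [U.tr_main B hT (Function.Embedding.subtype _) (fun _ _ h => F.adj_sub h) R,
        chrom_eq_turan R]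
      exact ⟨le_rfl, le_max_left _ _⟩
  refine ⟨max_le h1.1 ?_, h1.2⟩
  rcases hr with rfl | ⟨hr, hH⟩
  · rw [Nat.cast_one, div_one, sub_self]
    exact Real.sInf_nonneg fun _ h => h.1.le
  · exact U.lo_main R.lim0 R.inf (fun _ hγ => R.decay hγ 0) hr hH

end Pool.Agent.Results.MP_d4a230_co.SandwichReduction
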