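import Pool.Agent.Work.MP_d4a230_co.T.Main

namespace Pool.Agent.Results.MP_d4a230_co.TreeExactValue

open Pool.Agent.Work.MP_d4a230_co

/-- Exact value of the chromatic threshold at the 2-density threshold when `m₂(H) > 1`,
`copyRate F c * (e(F) - 1) ≤ e`, and `F` is either the unique 2-densest subgraph of `H` or a
strictly 2-balanced subgraph with `m₂(F) = m₂(H)` such that `H` lies in a tree of copies of `F`. -/
theorem result {W : Type} [Fintype W] (H : SimpleGraph W) (F : H.Subgraph)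
    (hF : UniqueDensest F ∨
      (StrictlyTwoBalanced F.coe ∧ twoDensity F.coe = twoDensity H ∧ TreeOf F.coe H))
    (hm : 1 < twoDensity H) (c : ℝ) (hc : 0 < c) (p : ℕ → unitInterval)
    (hp : Filter.Tendsto (fun n : ℕ => (p n : ℝ) * (n : ℝ) ^ (1 / twoDensity H)) Filter.atTop
      (nhds c))
    (hsmall : ((F.edgeSet.ncard : ℝ) - 1) * copyRate F.coe c ≤ Real.exp 1) :
    ∃ x : ℝ, (∀ y : ℝ, y = Real.exp (-(copyRate F.coe c * y ^ (F.edgeSet.ncard - 1))) ↔ y = x) ∧
      chromThreshold H p = x + ((F.edgeSet.ncard : ℝ) - 1) / (F.edgeSet.ncard : ℝ) *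
        copyRate F.coe c * x ^ F.edgeSet.ncard := by
  classical
  have be : HBal F.coe ∧ twoDensity H =
      ((F.coe.edgeFinset.card : ℝ) - 1) / ((Fintype.card F.verts : ℝ) - 2) := by
    rcases hF with hF | ⟨hS, e, -⟩
    · obtain ⟨C, e⟩ := U.cr_core (F := F.coe) (U.cr_verts F) (fun _ _ => Iff.rfl) hF hm
      exact ⟨C.hbal, e⟩
    · exact ⟨hS.hbal (e ▸ hm), e.symm.trans hS.twoDensity_eq⟩
  obtain ⟨B, e⟩ := be
  rw [e] at hp
  have R := B.reg hc hp
  have h3 : 3 ≤ F.coe.edgeFinset.card := B.h3.trans B.hk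
  have h0 : 0 < copyRate F.coe c := by
    have h1 := one_le_aut (H := F.coe)
    have h2 : (0 : ℝ) < F.coe.edgeSet.ncard := by rw [ncard_edge]; exact_mod_cast (by omega)
    unfold aut at h1
    unfold copyRate
    positivity
  rw [U.cr_edges (F := F.coe) (U.cr_verts F) fun _ _ => Iff.rfl] at hsmall ⊢
  obtain ⟨x, hx, -⟩ := hxs_lim (by omega) h0 hsmall
  have h4 := hexact R h0 hsmall hx
  refine ⟨x, fun y => ⟨hfix_unique h0.le hx, fun e => e ▸ hx⟩, Eq.trans ?_ h4⟩
  rcases hF with hF | ⟨-, -, hT⟩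
  · obtain ⟨C, -⟩ := U.cr_core (F := F.coe) (U.cr_verts F) (fun _ _ => Iff.rfl) hF hm
    exact U.cr_eq C C.edeg (by omega) hc R (h4 ▸ U.cr_val h3 h0 hsmall hx)
  · exact U.tr_main B hT (Function.Embedding.subtype _) (fun _ _ h => F.adj_sub h) R

end Pool.Agent.Results.MP_d4a230_co.TreeExactValue
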